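import Pool.Agent.Work.MP_0da4e0_ag.Lin.Proj

/-! MP_0da4e0_ag, linear criterion: the spans do not depend on the embedding if and only if the
projectors are the components of an absolute Hodge tensor. -/

open Matrix

namespace Pool.Agent.Work.MP_0da4e0_ag.Lin

variable {ι : Type} [Fintype ι] [DecidableEq ι] {k : Type} [Field k]

omit [Fintype ι] [DecidableEq ι] in
theorem ratT_comp {m n : ℕ} {R S : Type} [DivisionRing R] [DivisionRing S] (f : R →+* S)
    (t : Tens ι m n ℚ) : (fun e => f (ratT R t e)) = ratT S t := ratT_map f t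

/-- the `l`-adic components of the projectors -/
theorem et_proj {H : RealSys k ι} {π : (k →+* ℂ) → Tens ι 2 2 ℚ}
    (hπ : ∀ σ, IsLieProj (H.hodge σ) (π σ)) (hE : EtIndep H) (l : ℕ) [Fact l.Prime] (σ τ : k →+* ℂ) :
    act (H.et σ l) (ratT ℚ_[l] (π σ)) = act (H.et τ l) (ratT ℚ_[l] (π τ)) := by
  have h1 := isPr_lieSpan (H.et σ l) (hπ σ)
  have h2 := isPr_lieSpan (H.et τ l) (hπ τ)
  rw [hE l σ τ] at h1
  exact h1.unique h2

/-- conversely -/
theorem et_of_proj {H : RealSys k ι} {π : (k →+* ℂ) → Tens ι 2 2 ℚ}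
    (hπ : ∀ σ, IsLieProj (H.hodge σ) (π σ))
    (h : ∀ (l : ℕ) [Fact l.Prime] (σ τ : k →+* ℂ),
      act (H.et σ l) (ratT ℚ_[l] (π σ)) = act (H.et τ l) (ratT ℚ_[l] (π τ))) : EtIndep H := by
  intro l hl σ τ
  rw [← (isPr_lieSpan (H.et σ l) (hπ σ)).range, ← (isPr_lieSpan (H.et τ l) (hπ τ)).range, h l σ τ]

/-- the de Rham components of the projectors -/
theorem dr_proj {H : RealSys k ι} {π : (k →+* ℂ) → Tens ι 2 2 ℚ}
    (hπ : ∀ σ, IsLieProj (H.hodge σ) (π σ)) (hD : DRIndep H) :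
    ∃ D : Tens ι 2 2 k, ∀ σ : k →+* ℂ, act (H.per σ) (ratT ℂ (π σ)) = fun e => σ (D e) := by
  obtain ⟨L, hL⟩ := hD
  rcases isEmpty_or_nonempty (k →+* ℂ) with hk | ⟨⟨σ₀⟩⟩
  · exact ⟨0, fun σ => (hk.false σ).elim⟩
  have h0 := isPr_lieSpan (H.per σ₀) (hπ σ₀)
  rw [hL σ₀] at h0
  obtain ⟨D, hD⟩ := exists_pr_of_bc σ₀ (M := L) h0
  refine ⟨D, fun σ => ?_⟩
  have h1 := isPr_lieSpan (H.per σ) (hπ σ)
  rw [hL σ] at h1
  exact h1.unique (hD.bc σ)

/-- conversely -/
theorem dr_of_proj {H : RealSys k ι} {π : (k →+* ℂ) → Tens ι 2 2 ℚ}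
    (hπ : ∀ σ, IsLieProj (H.hodge σ) (π σ)) {D : Tens ι 2 2 k}
    (h : ∀ σ : k →+* ℂ, act (H.per σ) (ratT ℂ (π σ)) = fun e => σ (D e)) : DRIndep H := by
  refine ⟨LinearMap.range (endL D), fun τ => ?_⟩
  rw [← (isPr_lieSpan (H.per τ) (hπ τ)).range, h τ]
  exact range_bc τ D

/-- The spans do not depend on the embedding if and only if the projectors are the Betti components of
an absolute Hodge tensor. -/
theorem indep_iff {H : RealSys k ι} (hpol : ∀ σ, ∃ S : Matrix ι ι ℚ, Polarizes (H.hodge σ) S) :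
    (EtIndep H ∧ DRIndep H) ↔ ∃ s : AHTensor H 2 2, ∀ σ, IsLieProj (H.hodge σ) (s.betti σ) := by
  constructor
  · rintro ⟨hE, hD⟩
    choose S hS using hpol
    choose π hπ using fun σ => exists_projQ (hS σ)
    obtain ⟨D, hD⟩ := dr_proj hπ hD
    rcases isEmpty_or_nonempty (k →+* ℂ) with hk | ⟨⟨σ₀⟩⟩
    · refine ⟨{ dR := D
                ad := fun _ _ => 0
                betti := π
                comp_dR := hD
                comp_ad := fun τ => (hk.false τ).elim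
                hodge := fun τ => (hk.false τ).elim }, hπ⟩
    · refine ⟨{ dR := D
                ad := fun l _ => act (H.et σ₀ l) (ratT ℚ_[l] (π σ₀))
                betti := π
                comp_dR := hD
                comp_ad := fun τ l _ => et_proj hπ hE l τ σ₀
                hodge := fun τ => (hπ τ).isHodge (hS τ) }, hπ⟩
  · rintro ⟨s, hs⟩
    refine ⟨et_of_proj hs ?_, dr_of_proj hs s.comp_dR⟩
    intro l hl σ τ
    rw [s.comp_ad σ l, s.comp_ad τ l]

end Pool.Agent.Work.MP_0da4e0_ag.Lin
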