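import Pool.Agent.Work.MP_0da4e0_ag.WeilMaster
import Pool.Agent.Work.MP_0da4e0_ag.Ex.GlN

/-! MP_0da4e0_ag, linear criterion: the linear spans of the Lie algebra of the Mumford-Tate group in the
de Rham and in the l-adic realizations. -/

open Matrix

namespace Pool.Agent.Work.MP_0da4e0_ag.Lin

variable {ι : Type} [Fintype ι] [DecidableEq ι] {k : Type} [Field k]

/-- The `R`-linear span of the matrices `g * X * g⁻¹`, where `X` runs through the rational matrices
killing all Hodge tensors of `h`. -/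
def lieSpan (R : Type) [Field R] (g : GL ι R) (h : HodgeStr ι) : Submodule R (Matrix ι ι R) :=
  Submodule.span R {Y | ∃ X ∈ mtLie h,
    Y = (g : Matrix ι ι R) * X.map (fun q : ℚ => (q : R)) * ((g⁻¹ : GL ι R) : Matrix ι ι R)}

/-- In every `l`-adic realization the `ℚ_l`-linear span of the Lie algebra of the matrices killing the
Hodge tensors does not depend on the embedding. -/
def EtIndep (H : RealSys k ι) : Prop :=
  ∀ (l : ℕ) [Fact l.Prime] (σ τ : k →+* ℂ),
    lieSpan ℚ_[l] (H.et σ l) (H.hodge σ) = lieSpan ℚ_[l] (H.et τ l) (H.hodge τ)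

/-- In the de Rham realization the complex span of the Lie algebra of the matrices killing the Hodge
tensors is, for every embedding, the extension of scalars of one subspace over `k`. -/
def DRIndep (H : RealSys k ι) : Prop :=
  ∃ L : Submodule k (Matrix ι ι k), ∀ τ : k →+* ℂ,
    lieSpan ℂ (H.per τ) (H.hodge τ) = Submodule.span ℂ {Y | ∃ X ∈ L, Y = X.map τ}

open Matrix.GeneralLinearGroup in
/-- The `l`-adic half of `IsFinAH`: the rational tensor `x` of the Betti realization at `σ` belongs to a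
family of `N ≤ N₀` tensors `B σ j` of the complexified Betti realization at `σ`, which at every embedding
`τ` corresponds to a family `B τ j` of pairwise distinct tensors with algebraic entries and of type
(0, 0), stable under field endomorphisms of `ℂ`, with, up to a permutation, common `l`-adic
components. -/
def IsFinAHet (H : RealSys k ι) (σ : k →+* ℂ) (N₀ : ℕ) {a b : ℕ} (x : Tens ι a b ℚ) : Prop :=
  ∃ N ≤ N₀, ∃ (j₀ : Fin N) (B : (k →+* ℂ) → Fin N → Tens ι a b ℂ),
    B σ j₀ = ratT ℂ x ∧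
    (∀ τ, Function.Injective (B τ)) ∧
    (∀ τ j e, IsAlgebraic ℚ (B τ j e)) ∧
    (∀ τ j, IsTypeZero (H.hodge τ) (B τ j)) ∧
    (∀ τ (θ : ℂ →+* ℂ), ∃ π : Equiv.Perm (Fin N), ∀ j, (fun e => θ (B τ j e)) = B τ (π j)) ∧
    (∀ (τ : k →+* ℂ) (l : ℕ) [Fact l.Prime] (γ : ℚ_[l] →+* ℂ), ∃ π : Equiv.Perm (Fin N), ∀ j,
      act (map γ (H.et τ l)) (B τ j) = act (map γ (H.et σ l)) (B σ (π j)))

theorem IsFinAHet.of_fin {H : RealSys k ι} {σ : k →+* ℂ} {N₀ : ℕ} {a b : ℕ} {x : Tens ι a b ℚ}
    (h : IsFinAH H σ N₀ x) : IsFinAHet H σ N₀ x := by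
  obtain ⟨N, hN, j₀, D, B, h0, hinj, halg, htype, -, hgal, had⟩ := h
  exact ⟨N, hN, j₀, B, h0, hinj, halg, htype, hgal, had⟩

end Pool.Agent.Work.MP_0da4e0_ag.Lin
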