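import Pool.Agent.Work.MP_0da4e0_ag.Lin.Trans

/-! MP_0da4e0_ag, linear criterion: main theorems. -/

open Matrix Matrix.GeneralLinearGroup

namespace Pool.Agent.Work.MP_0da4e0_ag.Lin

variable {ι : Type} [Fintype ι] [DecidableEq ι] {k : Type} [Field k]

/-- an absolute Hodge tensor is absolutely Hodge up to finite ambiguity -/
theorem fin_of_ah {H : RealSys k ι} {a b : ℕ} (s : AHTensor H a b) (σ : k →+* ℂ) :
    IsFinAH H σ 1 (s.betti σ) := by
  refine ⟨1, le_rfl, 0, fun _ => s.dR, fun τ _ => ratT ℂ (s.betti τ), rfl, ?_, ?_, ?_, ?_, ?_, ?_⟩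
  · intro τ i j _
    exact Subsingleton.elim i j
  · intro τ j e
    exact isAlgebraic_algebraMap (s.betti τ e)
  · intro τ j
    exact s.hodge τ
  · intro τ j
    exact s.comp_dR τ
  · intro τ θ
    exact ⟨1, fun j => ratT_map θ (s.betti τ)⟩
  · intro τ l hl γ
    refine ⟨1, fun j => ?_⟩
    have e1 := congrArg (fun t : Tens ι a b ℚ_[l] => fun e => γ (t e)) (s.comp_ad τ l)
    have e2 := congrArg (fun t : Tens ι a b ℚ_[l] => fun e => γ (t e)) (s.comp_ad σ l)
    rw [map_act, ratT_map] at e1 e2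
    rw [e1, e2]

/-- scalar endomorphisms are absolutely Hodge -/
theorem ah_scalar (H : RealSys k ι) (c : ℚ) :
    ∃ s : AHTensor H 1 1, ∀ σ, s.betti σ = matT (c • (1 : Matrix ι ι ℚ)) := by
  have key : ∀ {R : Type} [Field R] [CharZero R] (g : GL ι R),
      act g (ratT R (matT (c • (1 : Matrix ι ι ℚ)))) = matT ((c : R) • (1 : Matrix ι ι R)) := by
    intro R _ _ g
    have h1 : ratT R (matT (c • (1 : Matrix ι ι ℚ))) = matT ((c : R) • (1 : Matrix ι ι R)) := by
      funext e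
      simp only [ratT, matT, Matrix.smul_apply, smul_eq_mul, Matrix.one_apply]
      split_ifs <;> simp
    rw [h1, act_matT, Matrix.mul_smul, Matrix.mul_one, Matrix.smul_mul, gi]
  refine ⟨{ dR := fun e => ((c : k) • (1 : Matrix ι ι k)) (e.1 0) (e.2 0)
            ad := fun l _ => matT ((c : ℚ_[l]) • (1 : Matrix ι ι ℚ_[l]))
            betti := fun _ => matT (c • (1 : Matrix ι ι ℚ))
            comp_dR := ?_
            comp_ad := fun τ l _ => key _
            hodge := ?_ }, fun _ => rfl⟩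
  · intro τ
    rw [key]
    funext e
    simp only [matT, Matrix.smul_apply, smul_eq_mul, Matrix.one_apply]
    split_ifs <;> simp
  · intro τ z w g _
    rw [key]
    funext e
    simp only [ratT, matT, Matrix.smul_apply, smul_eq_mul, Matrix.one_apply]
    split_ifs <;> simp

/-- nonzero pure weight and scalar endomorphisms: one class suffices -/
theorem fin_all_of_proj [IsAlgClosed k] {H : RealSys k ι} {σ : k →+* ℂ} {S : Matrix ι ι ℚ}
    (hS : Polarizes (H.hodge σ) S) {w : ℤ} (hw : w ≠ 0)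
    (hpure : ∀ p q, (H.hodge σ).V (p, q) ≠ ⊥ → p + q = w)
    (hE : ∀ A : Matrix ι ι ℚ, IsHodge (H.hodge σ) (matT A) → ∃ c : ℚ, A = c • (1 : Matrix ι ι ℚ))
    (s : AHTensor H 2 2) (hs : IsLieProj (H.hodge σ) (s.betti σ)) :
    ∃ N₀, ∀ (a b : ℕ) (x : Tens ι a b ℚ), IsHodge (H.hodge σ) x → IsFinAH H σ N₀ x := by
  have h1 := (one_class H σ S hS hs (I := Empty) (m := fun i => i.elim) (n := fun i => i.elim)
    (fun i => i.elim) (fun i => i.elim)).2 ⟨⟨1, fin_of_ah s σ⟩, fun A hA => by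
      obtain ⟨c, rfl⟩ := hE A hA
      obtain ⟨t, ht⟩ := ah_scalar H c
      rw [← ht σ]
      exact ⟨1, fin_of_ah t σ⟩, fun i => i.elim⟩
  obtain ⟨N₀, h2⟩ := h1
  refine ⟨N₀, fun a b x hx => h2 a b x hx ?_⟩
  intro Z hZ _ _
  obtain ⟨c, rfl⟩ := hE Z hZ
  by_cases hab : a = b
  · subst hab
    have h3 : dact (cx (c • (1 : Matrix ι ι ℚ))) (ratT ℂ x) = 0 := by
      have h4 : cx (c • (1 : Matrix ι ι ℚ)) = (c : ℂ) • (1 : Matrix ι ι ℂ) := by
        ext i j
        simp only [cx, Matrix.map_apply, Matrix.smul_apply, smul_eq_mul, Matrix.one_apply]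
        split_ifs <;> simp
      rw [h4, dact_smul, dact_one, sub_self, zero_smul, smul_zero]
    rw [dact_ratT] at h3
    exact ratT_injective (R := ℂ) (by rw [h3, ratT_zero])
  · rw [Ex.balanced hw hpure hx hab, dact, Matrix.mulVec_zero]

/-- `l`-adic version -/
theorem finEt_all [IsAlgClosed k] {H : RealSys k ι}
    (hpol : ∀ σ, ∃ S : Matrix ι ι ℚ, Polarizes (H.hodge σ) S) {w : ℤ} (hw : w ≠ 0) (σ : k →+* ℂ)
    (hpure : ∀ p q, (H.hodge σ).V (p, q) ≠ ⊥ → p + q = w)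
    (hE : ∀ A : Matrix ι ι ℚ, IsHodge (H.hodge σ) (matT A) → ∃ c : ℚ, A = c • (1 : Matrix ι ι ℚ))
    (hI : EtIndep H) :
    ∃ N₀, ∀ (a b : ℕ) (x : Tens ι a b ℚ), IsHodge (H.hodge σ) x → IsFinAHet H σ N₀ x := by
  choose S hS using hpol
  choose π hπ using fun σ => exists_projQ (hS σ)
  have : Fact (Nat.Prime 2) := ⟨Nat.prime_two⟩
  obtain ⟨γ⟩ := embed_padic 2
  have : CharZero k := RingHom.charZero σ
  let H' : RealSys k ι :=
    { hodge := H.hodge
      per := fun τ => (map γ (H.et σ 2))⁻¹ * map γ (H.et τ 2)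
      et := H.et }
  have hdR : ∀ τ : k →+* ℂ, act (H'.per τ) (ratT ℂ (π τ)) = fun e => τ (ratT k (π σ) e) := by
    intro τ
    have e1 := congrArg (fun t : Tens ι 2 2 ℚ_[2] => fun e => γ (t e)) (et_proj hπ hI 2 τ σ)
    rw [map_act, map_act, ratT_map, ratT_map] at e1
    change act ((map γ (H.et σ 2))⁻¹ * map γ (H.et τ 2)) (ratT ℂ (π τ)) = _
    rw [act_mul, e1, act_inv_act, ratT_map]
  let s : AHTensor H' 2 2 :=
    { dR := ratT k (π σ)
      ad := fun l _ => act (H.et σ l) (ratT ℚ_[l] (π σ))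
      betti := π
      comp_dR := hdR
      comp_ad := fun τ l _ => et_proj hπ hI l τ σ
      hodge := fun τ => (hπ τ).isHodge (hS τ) }
  obtain ⟨N₀, h1⟩ := fin_all_of_proj (H := H') (σ := σ) (hS σ) hw hpure hE s (hπ σ)
  refine ⟨N₀, fun a b x hx => ?_⟩
  obtain ⟨N, hN, j₀, D, B, h0, hinj, halg, htype, -, hgal, had⟩ := h1 a b x hx
  exact ⟨N, hN, j₀, B, h0, hinj, halg, htype, hgal, had⟩

end Pool.Agent.Work.MP_0da4e0_ag.Lin
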