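import Pool.Agent.Work.MP_0da4e0_ag.Lin.Reidx
import Pool.Agent.Work.MP_0da4e0_ag.Ex.GlN

/-! MP_0da4e0_ag, linear criterion: the conditions on single tensors are only needed at one embedding;
exact version. -/

open Matrix Matrix.GeneralLinearGroup

namespace Pool.Agent.Work.MP_0da4e0_ag.Lin

variable {ι : Type} [Fintype ι] [DecidableEq ι] {k : Type} [Field k]

/-- matrices killing all absolute Hodge tensors are in the Lie algebra -/
def LieAH (H : RealSys k ι) (σ : k →+* ℂ) : Prop :=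
  ∀ Y : Matrix ι ι ℂ, (∀ (m n : ℕ) (s : AHTensor H m n), dact Y (ratT ℂ (s.betti σ)) = 0) →
    Y ∈ mtLieC (H.hodge σ)

theorem lieAH_of_fin {H : RealSys k ι} {σ : k →+* ℂ}
    (h : ∀ (a b : ℕ) (x : Tens ι a b ℚ), IsHodge (H.hodge σ) x → ∃ N₀, IsFinAH H σ N₀ x) :
    LieAH H σ := by
  intro Y hY a b x hx
  obtain ⟨N₀, h1⟩ := h a b x hx
  exact finAH_killed h1 Y hY

theorem fin_of_lieAH [IsAlgClosed k] {H : RealSys k ι} {σ : k →+* ℂ} (h : LieAH H σ) :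
    ∃ N₀, ∀ (a b : ℕ) (x : Tens ι a b ℚ), IsHodge (H.hodge σ) x → IsFinAH H σ N₀ x := by
  let I := Σ d : ℕ × ℕ, AHTensor H d.1 d.2
  let T : ∀ i : I, AHTensor H i.1.1 i.1.2 := fun i => i.2
  obtain ⟨N₀, hN₀⟩ := exists_orb_bound T σ
  refine ⟨N₀, fun a b x hx => ?_⟩
  have hfin : (orbC T σ x).Finite := by
    apply orbC_finite
    intro g hg e
    refine alg_of_lie (fun i : I => (T i).betti σ) x ?_ g hg e
    intro Y hY
    exact h Y (fun m n s => hY ⟨(m, n), s⟩) a b x hx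
  exact isFinAH_of_finite T x σ hfin N₀ (hN₀ a b x hfin)

/-- the `l`-adic comparison between two embeddings -/
noncomputable def cmp (H : RealSys k ι) (σ τ : k →+* ℂ) {l : ℕ} [Fact l.Prime] (γ : ℚ_[l] →+* ℂ) :
    GL ι ℂ := (map γ (H.et τ l))⁻¹ * map γ (H.et σ l)

theorem cmp_ah {H : RealSys k ι} (σ τ : k →+* ℂ) {l : ℕ} [Fact l.Prime] (γ : ℚ_[l] →+* ℂ)
    {m n : ℕ} (s : AHTensor H m n) :
    act (cmp H σ τ γ) (ratT ℂ (s.betti σ)) = ratT ℂ (s.betti τ) :=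
  trans_mem_adic (I := Unit) (m := fun _ => m) (n := fun _ => n) (fun _ => s) σ τ γ ()

theorem cmp_lie {H : RealSys k ι} {S : (k →+* ℂ) → Matrix ι ι ℚ}
    (hS : ∀ τ, Polarizes (H.hodge τ) (S τ)) (hI : EtIndep H) (σ τ : k →+* ℂ) {l : ℕ}
    [Fact l.Prime] (γ : ℚ_[l] →+* ℂ) :
    (mtLieC (H.hodge σ)).map (cjL (cmp H σ τ γ)) = mtLieC (H.hodge τ) := by
  choose π hπ using fun σ => exists_projQ (hS σ)
  have e1 := congrArg (fun t : Tens ι 2 2 ℚ_[l] => fun e => γ (t e)) (et_proj hπ hI l σ τ)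
  rw [map_act, map_act, ratT_map, ratT_map] at e1
  have e2 : act (cmp H σ τ γ) (ratT ℂ (π σ)) = ratT ℂ (π τ) := by
    rw [cmp, act_mul, e1, act_inv_act]
  have p1 : IsPr (mtLieC (H.hodge σ)) (ratT ℂ (π σ)) := fun A =>
    ⟨(hπ σ).mem A, fun X hX => (hπ σ).orth A X hX⟩
  have p2 : IsPr (mtLieC (H.hodge τ)) (ratT ℂ (π τ)) := fun A =>
    ⟨(hπ τ).mem A, fun X hX => (hπ τ).orth A X hX⟩
  have p3 := p1.act (cmp H σ τ γ)
  rw [e2] at p3
  rw [← p3.range, p2.range]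

theorem act_zero'' (g : GL ι ℂ) {a b : ℕ} : act g (0 : Tens ι a b ℂ) = 0 := by
  rw [act_eq, Matrix.mulVec_zero]

theorem lieAH_transport {H : RealSys k ι} (hpol : ∀ σ, ∃ S : Matrix ι ι ℚ, Polarizes (H.hodge σ) S)
    (hI : EtIndep H) (σ τ : k →+* ℂ) (h : LieAH H σ) : LieAH H τ := by
  choose S hS using hpol
  have : Fact (Nat.Prime 2) := ⟨Nat.prime_two⟩
  obtain ⟨γ⟩ := embed_padic 2
  intro Y hY
  have h1 : cjL (cmp H σ τ γ)⁻¹ Y ∈ mtLieC (H.hodge σ) := by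
    apply h
    intro m n s
    have e1 := act_dact (cmp H σ τ γ)⁻¹ Y (ratT ℂ (s.betti τ))
    rw [hY m n s, act_zero'', ← cmp_ah σ τ γ s, act_inv_act] at e1
    rw [cjL_apply]
    exact e1.symm
  rw [← cmp_lie hS hI σ τ γ]
  exact ⟨_, h1, cjL_inv _ Y⟩

theorem fin_transport [IsAlgClosed k] {H : RealSys k ι}
    (hpol : ∀ σ, ∃ S : Matrix ι ι ℚ, Polarizes (H.hodge σ) S) (hI : EtIndep H) (σ τ : k →+* ℂ)
    (h : ∀ (a b : ℕ) (x : Tens ι a b ℚ), IsHodge (H.hodge σ) x → ∃ N₀, IsFinAH H σ N₀ x) :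
    ∃ N₀, ∀ (a b : ℕ) (x : Tens ι a b ℚ), IsHodge (H.hodge τ) x → IsFinAH H τ N₀ x :=
  fin_of_lieAH (lieAH_transport hpol hI σ τ (lieAH_of_fin h))

theorem finEt_transport [IsAlgClosed k] {H : RealSys k ι}
    (hpol : ∀ σ, ∃ S : Matrix ι ι ℚ, Polarizes (H.hodge σ) S) (hI : EtIndep H) (σ τ : k →+* ℂ)
    (h : ∀ (a b : ℕ) (x : Tens ι a b ℚ), IsHodge (H.hodge σ) x → ∃ N₀, IsFinAHet H σ N₀ x) :
    ∃ N₀, ∀ (a b : ℕ) (x : Tens ι a b ℚ), IsHodge (H.hodge τ) x → IsFinAHet H τ N₀ x := by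
  have : Fact (Nat.Prime 2) := ⟨Nat.prime_two⟩
  obtain ⟨γ⟩ := embed_padic 2
  obtain ⟨N₀, h2⟩ := fin_transport (H := tw H γ σ) hpol hI σ τ fun a b x hx => by
    obtain ⟨N₀, h1⟩ := h a b x hx
    exact ⟨N₀, fin_tw γ h1⟩
  refine ⟨N₀, fun a b x hx => ?_⟩
  obtain ⟨N, hN, j₀, D, B, h0, hinj, halg, htype, -, hgal, had⟩ := h2 a b x hx
  exact ⟨N, hN, j₀, B, h0, hinj, halg, htype, hgal, had⟩

/-- The `l`-adic linear criterion, with the Weil tensors at one embedding. -/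
theorem one_et [IsAlgClosed k] {H : RealSys k ι}
    (hpol : ∀ σ, ∃ S : Matrix ι ι ℚ, Polarizes (H.hodge σ) S) (s : k →+* ℂ) (h : ℕ)
    (hh : ∀ p q : ℤ, (H.hodge s).V (p, q) ≠ ⊥ → |p| ≤ h) :
    (∀ σ, ∃ N₀, ∀ (a b : ℕ) (x : Tens ι a b ℚ), IsHodge (H.hodge σ) x → IsFinAHet H σ N₀ x) ↔
      EtIndep H ∧ ∀ a b : ℕ, a ≤ weilN (Fintype.card ι) h → b ≤ weilN (Fintype.card ι) h →
        ∀ x : Tens ι a b ℚ, IsHodge (H.hodge s) x → IsWeil (H.hodge s) x →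
          ∃ N₀, IsFinAHet H s N₀ x := by
  constructor
  · intro hall
    refine ⟨etIndep_of_fin hpol fun σ a b x hx => ?_, fun a b _ _ x hx _ => ?_⟩
    · obtain ⟨N₀, h1⟩ := hall σ
      exact ⟨N₀, h1 a b x hx⟩
    · obtain ⟨N₀, h1⟩ := hall s
      exact ⟨N₀, h1 a b x hx⟩
  · rintro ⟨hI, hW⟩ τ
    refine finEt_transport hpol hI s τ ?_
    choose S hS using hpol
    choose π hπ using fun σ => exists_projQ (hS σ)
    have : Fact (Nat.Prime 2) := ⟨Nat.prime_two⟩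
    obtain ⟨γ⟩ := embed_padic 2
    obtain ⟨t, ht⟩ := exists_tw γ hS hπ hI s
    have h1 := fin_of_ah t s
    rw [ht] at h1
    obtain ⟨N₀, h2⟩ := (weil_criterion (tw H γ s) s (S s) (hS s) h hh (hπ s)).2
      ⟨⟨1, h1⟩, fun a b ha hb x hx hxW => by
        obtain ⟨N₁, h3⟩ := hW a b ha hb x hx hxW
        exact ⟨N₁, fin_tw γ h3⟩⟩
    intro a b x hx
    refine ⟨N₀, ?_⟩
    obtain ⟨N, hN, j₀, D, B, h0, hinj, halg, htype, -, hgal, had⟩ := h2 a b x hx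
    exact ⟨N, hN, j₀, B, h0, hinj, halg, htype, hgal, had⟩

/-- The linear criterion, with the Weil tensors at one embedding. -/
theorem one_all [IsAlgClosed k] {H : RealSys k ι}
    (hpol : ∀ σ, ∃ S : Matrix ι ι ℚ, Polarizes (H.hodge σ) S) (s : k →+* ℂ) (h : ℕ)
    (hh : ∀ p q : ℤ, (H.hodge s).V (p, q) ≠ ⊥ → |p| ≤ h) :
    (∀ σ, ∃ N₀, ∀ (a b : ℕ) (x : Tens ι a b ℚ), IsHodge (H.hodge σ) x → IsFinAH H σ N₀ x) ↔
      (EtIndep H ∧ DRIndep H) ∧ ∀ a b : ℕ, a ≤ weilN (Fintype.card ι) h →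
        b ≤ weilN (Fintype.card ι) h → ∀ x : Tens ι a b ℚ, IsHodge (H.hodge s) x →
          IsWeil (H.hodge s) x → ∃ N₀, IsFinAH H s N₀ x := by
  constructor
  · intro hall
    have h0 : ∀ (σ : k →+* ℂ) (a b : ℕ) (x : Tens ι a b ℚ), IsHodge (H.hodge σ) x →
        ∃ N₀, IsFinAH H σ N₀ x := by
      intro σ a b x hx
      obtain ⟨N₀, h1⟩ := hall σ
      exact ⟨N₀, h1 a b x hx⟩
    refine ⟨⟨etIndep_of_fin hpol fun σ a b x hx => ?_, drIndep_of_fin hpol h0⟩,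
      fun a b _ _ x hx _ => h0 s a b x hx⟩
    obtain ⟨N₀, h1⟩ := h0 σ a b x hx
    exact ⟨N₀, IsFinAHet.of_fin h1⟩
  · rintro ⟨hI, hW⟩ τ
    refine fin_transport hpol hI.1 s τ ?_
    obtain ⟨t, ht⟩ := (indep_iff hpol).1 hI
    obtain ⟨S, hS⟩ := hpol s
    obtain ⟨N₀, h2⟩ := (weil_criterion H s S hS h hh (ht s)).2
      ⟨⟨1, fin_of_ah t s⟩, fun a b ha hb x hx hxW => hW a b ha hb x hx hxW⟩
    exact fun a b x hx => ⟨N₀, h2 a b x hx⟩

/-- Scalar Hodge endomorphisms at one embedding: the spans are sufficient. -/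
theorem one_scalar [IsAlgClosed k] {H : RealSys k ι}
    (hpol : ∀ σ, ∃ S : Matrix ι ι ℚ, Polarizes (H.hodge σ) S) (s : k →+* ℂ) {w : ℤ} (hw : w ≠ 0)
    (hpure : ∀ p q, (H.hodge s).V (p, q) ≠ ⊥ → p + q = w)
    (hE : ∀ A : Matrix ι ι ℚ, IsHodge (H.hodge s) (matT A) → ∃ c : ℚ, A = c • (1 : Matrix ι ι ℚ)) :
    ((∀ σ, ∃ N₀, ∀ (a b : ℕ) (x : Tens ι a b ℚ), IsHodge (H.hodge σ) x → IsFinAHet H σ N₀ x) ↔
      EtIndep H) ∧
    ((∀ σ, ∃ N₀, ∀ (a b : ℕ) (x : Tens ι a b ℚ), IsHodge (H.hodge σ) x → IsFinAH H σ N₀ x) ↔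
      EtIndep H ∧ DRIndep H) := by
  refine ⟨⟨fun hall => etIndep_of_fin hpol fun σ a b x hx => ?_, fun hI τ => ?_⟩,
    ⟨fun hall => ?_, fun hI τ => ?_⟩⟩
  · obtain ⟨N₀, h1⟩ := hall σ
    exact ⟨N₀, h1 a b x hx⟩
  · obtain ⟨N₀, h1⟩ := finEt_all hpol hw s hpure hE hI
    exact finEt_transport hpol hI s τ fun a b x hx => ⟨N₀, h1 a b x hx⟩
  · refine ⟨etIndep_of_fin hpol fun σ a b x hx => ?_, drIndep_of_fin hpol fun σ a b x hx => ?_⟩
    · obtain ⟨N₀, h1⟩ := hall σ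
      exact ⟨N₀, IsFinAHet.of_fin (h1 a b x hx)⟩
    · obtain ⟨N₀, h1⟩ := hall σ
      exact ⟨N₀, h1 a b x hx⟩
  · obtain ⟨t, ht⟩ := (indep_iff hpol).1 hI
    obtain ⟨S, hS⟩ := hpol s
    obtain ⟨N₀, h1⟩ := fin_all_of_proj hS hw hpure hE t (ht s)
    exact fin_transport hpol hI.1 s τ fun a b x hx => ⟨N₀, h1 a b x hx⟩

/-! ### exact version -/

/-- Principle A -/
theorem ah_of_fixed [IsAlgClosed k] {X : RealSys k ι} {σ : k →+* ℂ} {I : Type} {m n : I → ℕ}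
    (T : ∀ i, AHTensor X (m i) (n i)) {a b : ℕ} (x : Tens ι a b ℚ)
    (hfix : ∀ g ∈ stab T σ, act g (ratT ℂ x) = ratT ℂ x) :
    ∃ s : AHTensor X a b, s.betti σ = x := by
  have hrat : ∀ g ∈ stab T σ, ∃ y : Tens ι a b ℚ, ratT ℂ y = act g (ratT ℂ x) := by
    intro g hg
    exact ⟨x, (hfix g hg).symm⟩
  have horb : ∀ y ∈ orb T σ x, y = x := by
    rintro y ⟨g, hg, hy⟩
    rw [hfix g hg] at hy
    exact ratT_injective hy
  obtain ⟨D, B, h1, h2, h3, h4⟩ := orbit_principle X T σ x (orb_finite T σ x hrat) hrat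
  have hx0 : x ∈ orb T σ x := ⟨1, one_mem _, (act_one _).symm⟩
  let x0 : orb T σ x := ⟨x, hx0⟩
  have hsub : ∀ y : orb T σ x, (y : Tens ι a b ℚ) = x := fun y => horb y y.2
  refine ⟨{ dR := D x0
            ad := fun l _ => act (X.et σ l) (ratT ℚ_[l] x)
            betti := fun τ => B τ x0
            comp_dR := fun τ => h3 τ x0
            comp_ad := ?_
            hodge := fun τ => h2 τ x0 }, h1 x0⟩
  intro τ l hl
  obtain ⟨π, -, hπ⟩ := h4 τ l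
  rw [hπ x0, hsub]

/-- a complex tensor killed by the Lie algebra is a combination of Hodge tensors -/
theorem mem_span_hodge {h : HodgeStr ι} {a b : ℕ} {D : Tens ι a b ℂ}
    (hD : ∀ X ∈ mtLie h, dact (cx X) D = 0) :
    D ∈ Submodule.span ℂ {w : Tens ι a b ℂ | ∃ u : Tens ι a b ℚ, IsHodge h u ∧ w = ratT ℂ u} := by
  have hspan := mem_span_ker (M := {X : Matrix ι ι ℚ // X ∈ mtLie h} × ((Fin a → ι) × (Fin b → ι)))
    (Matrix.of fun r f => dmat a b r.1.1 r.2 f) D (by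
    funext r
    have h1 := congrFun (hD r.1.1 r.1.2) r.2
    rw [Pi.zero_apply] at h1 ⊢
    rw [← h1]
    simp only [Matrix.mulVec, dotProduct, dact]
    apply Finset.sum_congr rfl
    intro f _
    congr 1
    rw [Matrix.map_apply, Matrix.of_apply]
    have h2 : (fun q : ℚ => (q : ℂ)) = (Rat.castHom ℂ : ℚ → ℂ) := rfl
    have h3 : ∀ i j, (Rat.castHom ℂ) ((1 : Matrix ι ι ℚ) i j) = (1 : Matrix ι ι ℂ) i j := by
      intro i j
      rw [Matrix.one_apply, Matrix.one_apply]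
      split_ifs <;> simp
    have h4 : ((dmat a b r.1.1 r.2 f : ℚ) : ℂ) = (Rat.castHom ℂ) (dmat a b r.1.1 r.2 f) := rfl
    rw [h4]
    simp only [dmat, map_sub, map_mul, map_sum, map_prod, h3]
    rfl)
  refine Submodule.span_mono ?_ hspan
  rintro _ ⟨u, hu, rfl⟩
  have hu' : ∀ X ∈ mtLie h, dact X u = 0 := by
    intro X hX
    funext e
    exact congrFun hu (⟨X, hX⟩, e)
  exact ⟨u, isHodge_of_lie hu', rfl⟩

theorem ah_transport [IsAlgClosed k] {H : RealSys k ι}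
    (hpol : ∀ σ, ∃ S : Matrix ι ι ℚ, Polarizes (H.hodge σ) S) (hI : EtIndep H) (σ τ : k →+* ℂ)
    (h : ∀ (a b : ℕ) (x : Tens ι a b ℚ), IsHodge (H.hodge σ) x →
      ∃ s : AHTensor H a b, s.betti σ = x)
    (a b : ℕ) (x : Tens ι a b ℚ) (hx : IsHodge (H.hodge τ) x) :
    ∃ s : AHTensor H a b, s.betti τ = x := by
  choose S hS using hpol
  have : Fact (Nat.Prime 2) := ⟨Nat.prime_two⟩
  obtain ⟨γ⟩ := embed_padic 2
  let I := Σ d : ℕ × ℕ, AHTensor H d.1 d.2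
  let T : ∀ i : I, AHTensor H i.1.1 i.1.2 := fun i => i.2
  refine ah_of_fixed T x ?_
  intro g hg
  set u := cmp H σ τ γ with hu
  -- the transported tensor
  have hy : act u⁻¹ (ratT ℂ x) ∈ Submodule.span ℂ
      {w : Tens ι a b ℂ | ∃ t : Tens ι a b ℚ, IsHodge (H.hodge σ) t ∧ w = ratT ℂ t} := by
    apply mem_span_hodge
    intro X hX
    have h1 : cjL u (cx X) ∈ mtLieC (H.hodge τ) := by
      rw [← cmp_lie hS hI σ τ γ]
      exact ⟨_, cx_mem hX, rfl⟩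
    have e1 := act_dact u⁻¹ (cjL u (cx X)) (ratT ℂ x)
    rw [h1 a b x hx, act_zero''] at e1
    have e2 : ((u⁻¹ : GL ι ℂ) : Matrix ι ι ℂ) * cjL u (cx X) *
        (((u⁻¹)⁻¹ : GL ι ℂ) : Matrix ι ι ℂ) = cx X := by
      have e3 := cjL_inv u⁻¹ (cx X)
      rw [inv_inv] at e3
      rw [← cjL_apply]
      exact e3
    rw [e2] at e1
    exact e1.symm
  have key : ∀ y ∈ Submodule.span ℂ
      {w : Tens ι a b ℂ | ∃ t : Tens ι a b ℚ, IsHodge (H.hodge σ) t ∧ w = ratT ℂ t},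
      act (u⁻¹ * g * u) y = y := by
    intro y hy
    clear hx
    induction hy using Submodule.span_induction with
    | mem w hw =>
      obtain ⟨t, ht, rfl⟩ := hw
      obtain ⟨s, rfl⟩ := h a b t ht
      rw [act_mul, act_mul, hu, cmp_ah σ τ γ s, hg ⟨(a, b), s⟩, ← cmp_ah σ τ γ s, act_inv_act]
    | zero => exact act_zero'' _
    | add v w _ _ hv hw => rw [act_add, hv, hw]
    | smul c v _ hv => rw [act_smul, hv]
  have hfix := key _ hy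
  rw [act_mul, act_act_inv, act_mul] at hfix
  exact act_injective _ hfix

/-- Exact linear criterion: pure weight, central Hodge endomorphisms scalar at one embedding. -/
theorem one_exact [IsAlgClosed k] {H : RealSys k ι}
    (hpol : ∀ σ, ∃ S : Matrix ι ι ℚ, Polarizes (H.hodge σ) S) (s : k →+* ℂ) {w : ℤ} (hw : w ≠ 0)
    (hpure : ∀ p q, (H.hodge s).V (p, q) ≠ ⊥ → p + q = w)
    (hZ : ∀ Z : Matrix ι ι ℚ, Ex.IsCentral (H.hodge s) Z → ∃ c : ℚ, Z = c • (1 : Matrix ι ι ℚ)) :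
    (∀ (σ : k →+* ℂ) (a b : ℕ) (x : Tens ι a b ℚ), IsHodge (H.hodge σ) x →
      ∃ t : AHTensor H a b, t.betti σ = x) ↔
    (EtIndep H ∧ DRIndep H) ∧
      ∀ f : ℕ, f = 1 ∨ 2 * f ≤ Fintype.card ι → ∀ x : Tens ι f f ℚ, IsHodge (H.hodge s) x →
        Ex.Alt2 x → ∃ t : AHTensor H f f, t.betti s = x := by
  constructor
  · intro hall
    have h0 : ∀ (σ : k →+* ℂ) (a b : ℕ) (x : Tens ι a b ℚ), IsHodge (H.hodge σ) x →
        ∃ N₀, IsFinAH H σ N₀ x := by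
      intro σ a b x hx
      obtain ⟨t, rfl⟩ := hall σ a b x hx
      exact ⟨1, fin_of_ah t σ⟩
    refine ⟨⟨etIndep_of_fin hpol fun σ a b x hx => ?_, drIndep_of_fin hpol h0⟩,
      fun f _ x hx _ => hall s f f x hx⟩
    obtain ⟨N₀, h1⟩ := h0 σ a b x hx
    exact ⟨N₀, IsFinAHet.of_fin h1⟩
  · rintro ⟨hI, hA⟩ τ
    refine ah_transport hpol hI.1 s τ ?_
    obtain ⟨t, ht⟩ := (indep_iff hpol).1 hI
    obtain ⟨S, hS⟩ := hpol s
    exact (Ex.exact_scalar H s S hS (ht s) hw hpure hZ).2 ⟨⟨t, rfl⟩, hA⟩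

end Pool.Agent.Work.MP_0da4e0_ag.Lin
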