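import Pool.Agent.Work.MP_0da4e0_ag.Lin.Defs

/-! MP_0da4e0_ag, linear criterion: orthogonal projectors onto spaces of matrices over any field. -/

open Matrix

namespace Pool.Agent.Work.MP_0da4e0_ag.Lin

variable {ι : Type} [Fintype ι] [DecidableEq ι]

/-- `t` is the projector onto `M` along the orthogonal complement for the trace form -/
def IsPr {R : Type} [Field R] (M : Submodule R (Matrix ι ι R)) (t : Tens ι 2 2 R) : Prop :=
  ∀ A : Matrix ι ι R, endL t A ∈ M ∧ ∀ X ∈ M, Matrix.trace (X * (A - endL t A)) = 0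

section

variable {R : Type} [Field R] {M : Submodule R (Matrix ι ι R)} {t t' : Tens ι 2 2 R}

theorem IsPr.nondeg (h : IsPr M t) {Y : Matrix ι ι R} (hY : Y ∈ M)
    (hY' : ∀ X ∈ M, Matrix.trace (X * Y) = 0) : Y = 0 := by
  have h1 : ∀ A : Matrix ι ι R, Matrix.trace (A * Y) = 0 := by
    intro A
    have e1 := (h A).2 Y hY
    have e2 := hY' _ (h A).1
    have e3 : A * Y = (A - endL t A) * Y + endL t A * Y := by
      rw [← Matrix.add_mul, sub_add_cancel]
    rw [e3, Matrix.trace_add, e2, add_zero, Matrix.trace_mul_comm]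
    exact e1
  apply Matrix.ext_iff_trace_mul_left.2
  intro A
  rw [h1, Matrix.mul_zero, Matrix.trace_zero]

theorem IsPr.fix (h : IsPr M t) {A : Matrix ι ι R} (hA : A ∈ M) : endL t A = A := by
  have h1 : A - endL t A = 0 :=
    h.nondeg (Submodule.sub_mem _ hA (h A).1) (fun X hX => (h A).2 X hX)
  exact (sub_eq_zero.1 h1).symm

theorem IsPr.uniq (h : IsPr M t) {A B : Matrix ι ι R} (hB : B ∈ M)
    (hAB : ∀ X ∈ M, Matrix.trace (X * (A - B)) = 0) : endL t A = B := by
  rw [← sub_eq_zero]
  refine h.nondeg (Submodule.sub_mem _ (h A).1 hB) (fun X hX => ?_)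
  have e1 : endL t A - B = (A - B) - (A - endL t A) := by abel
  rw [e1, Matrix.mul_sub, Matrix.trace_sub, hAB X hX, (h A).2 X hX, sub_zero]

theorem IsPr.unique (h : IsPr M t) (h' : IsPr M t') : t = t' := by
  apply endL_injective
  apply LinearMap.ext
  intro A
  exact h.uniq (h' A).1 (fun X hX => (h' A).2 X hX)

theorem IsPr.range (h : IsPr M t) : LinearMap.range (endL t) = M := by
  apply le_antisymm
  · rintro _ ⟨A, rfl⟩
    exact (h A).1
  · intro A hA
    exact ⟨A, h.fix hA⟩

/-- existence -/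
theorem exists_pr (M : Submodule R (Matrix ι ι R))
    (hM : ∀ Y ∈ M, (∀ X ∈ M, Matrix.trace (X * Y) = 0) → Y = 0) : ∃ t : Tens ι 2 2 R, IsPr M t := by
  let trR : LinearMap.BilinForm R (Matrix ι ι R) :=
    LinearMap.mk₂ R (fun A B => Matrix.trace (A * B))
      (by intro A A' B; simp [Matrix.add_mul])
      (by intro c A B; simp)
      (by intro A B B'; simp [Matrix.mul_add])
      (by intro c A B; simp)
  have hsymm : trR.IsSymm := ⟨fun A B => Matrix.trace_mul_comm A B⟩
  have hdisj : Disjoint M (trR.orthogonal M) := by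
    rw [Submodule.disjoint_def]
    intro X hX hX'
    exact hM X hX (fun Y hY => hX' Y hY)
  have hcompl := (LinearMap.BilinForm.isCompl_orthogonal_iff_disjoint hsymm.isRefl).2 hdisj
  obtain ⟨π, hπ⟩ := exists_endT (M.subtype ∘ₗ Submodule.projectionOnto _ _ hcompl)
  refine ⟨π, fun A => ?_⟩
  rw [hπ]
  refine ⟨(Submodule.projectionOnto _ _ hcompl A).2, ?_⟩
  intro X hX
  have h1 : A - M.subtype (Submodule.projectionOnto _ _ hcompl A) ∈
      LinearMap.ker (Submodule.projectionOnto _ _ hcompl) := by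
    rw [LinearMap.mem_ker, map_sub]
    have : Submodule.projectionOnto _ _ hcompl
        (M.subtype (Submodule.projectionOnto _ _ hcompl A)) =
        Submodule.projectionOnto _ _ hcompl A :=
      Submodule.projectionOnto_apply_left hcompl _
    rw [this, sub_self]
  rw [Submodule.ker_projectionOnto hcompl] at h1
  exact h1 X hX

/-- conjugation by `g` -/
def cjL (g : GL ι R) : Matrix ι ι R →ₗ[R] Matrix ι ι R where
  toFun A := (g : Matrix ι ι R) * A * ((g⁻¹ : GL ι R) : Matrix ι ι R)
  map_add' A B := by rw [Matrix.mul_add, Matrix.add_mul]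
  map_smul' c A := by rw [Matrix.mul_smul, Matrix.smul_mul, RingHom.id_apply]

theorem cjL_apply (g : GL ι R) (A : Matrix ι ι R) :
    cjL g A = (g : Matrix ι ι R) * A * ((g⁻¹ : GL ι R) : Matrix ι ι R) := rfl

theorem gi (g : GL ι R) : (g : Matrix ι ι R) * ((g⁻¹ : GL ι R) : Matrix ι ι R) = 1 := by
  rw [← Units.val_mul, mul_inv_cancel, Units.val_one]

theorem ig (g : GL ι R) : ((g⁻¹ : GL ι R) : Matrix ι ι R) * (g : Matrix ι ι R) = 1 := by
  rw [← Units.val_mul, inv_mul_cancel, Units.val_one]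

theorem cjL_inv (g : GL ι R) (A : Matrix ι ι R) : cjL g (cjL g⁻¹ A) = A := by
  rw [cjL_apply, cjL_apply, inv_inv]
  calc (g : Matrix ι ι R) * (((g⁻¹ : GL ι R) : Matrix ι ι R) * A * (g : Matrix ι ι R)) *
        ((g⁻¹ : GL ι R) : Matrix ι ι R)
      = ((g : Matrix ι ι R) * ((g⁻¹ : GL ι R) : Matrix ι ι R)) * A *
        ((g : Matrix ι ι R) * ((g⁻¹ : GL ι R) : Matrix ι ι R)) := by simp only [Matrix.mul_assoc]
    _ = A := by rw [gi, Matrix.one_mul, Matrix.mul_one]

theorem trace_cjL (g : GL ι R) (A B : Matrix ι ι R) :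
    Matrix.trace (cjL g A * cjL g B) = Matrix.trace (A * B) := by
  have e1 : cjL g A * cjL g B = (g : Matrix ι ι R) * (A * B) * ((g⁻¹ : GL ι R) : Matrix ι ι R) := by
    rw [cjL_apply, cjL_apply]
    calc (g : Matrix ι ι R) * A * ((g⁻¹ : GL ι R) : Matrix ι ι R) *
          ((g : Matrix ι ι R) * B * ((g⁻¹ : GL ι R) : Matrix ι ι R))
        = (g : Matrix ι ι R) * A * (((g⁻¹ : GL ι R) : Matrix ι ι R) * (g : Matrix ι ι R)) * B *
          ((g⁻¹ : GL ι R) : Matrix ι ι R) := by simp only [Matrix.mul_assoc]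
      _ = _ := by rw [ig, Matrix.mul_one]; simp only [Matrix.mul_assoc]
  rw [e1, Matrix.trace_mul_comm, ← Matrix.mul_assoc, ig, Matrix.one_mul]

theorem IsPr.act (g : GL ι R) (h : IsPr M t) : IsPr (M.map (cjL g)) (MP_0da4e0_ag.act g t) := by
  intro A
  have e1 : endL (MP_0da4e0_ag.act g t) A = cjL g (endL t (cjL g⁻¹ A)) := by
    rw [endL_act, cjL_apply, cjL_apply, inv_inv]
  rw [e1]
  refine ⟨⟨_, (h _).1, rfl⟩, ?_⟩
  rintro _ ⟨X, hX, rfl⟩
  have e2 : A - cjL g (endL t (cjL g⁻¹ A)) = cjL g (cjL g⁻¹ A - endL t (cjL g⁻¹ A)) := by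
    rw [map_sub, cjL_inv]
  rw [e2, trace_cjL]
  exact (h _).2 X hX

end

section baseChange

variable {R S : Type} [Field R] [Field S]

omit [DecidableEq ι] in
theorem endL_map (f : R →+* S) (t : Tens ι 2 2 R) (A : Matrix ι ι R) :
    endL (fun e => f (t e)) (A.map f) = (endL t A).map f := by
  ext i j
  simp only [endL_apply, Matrix.map_apply, map_sum, map_mul]

/-- the span of the image of `M` under `f` -/
def bc (f : R →+* S) (M : Submodule R (Matrix ι ι R)) : Submodule S (Matrix ι ι S) :=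
  Submodule.span S {Y | ∃ X ∈ M, Y = X.map f}

omit [Fintype ι] in
theorem single_map (f : R →+* S) (i j : ι) :
    (Matrix.single i j (1 : R)).map f = Matrix.single i j (1 : S) := by
  ext a b
  simp only [Matrix.map_apply, Matrix.single_apply]
  split_ifs <;> simp

theorem range_bc (f : R →+* S) (t : Tens ι 2 2 R) :
    LinearMap.range (endL (fun e => f (t e))) = bc f (LinearMap.range (endL t)) := by
  apply le_antisymm
  · rintro _ ⟨A, rfl⟩
    rw [mat_sum_single A, map_sum]
    refine Submodule.sum_mem _ fun e _ => ?_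
    rw [map_smul, ← single_map f, endL_map]
    exact Submodule.smul_mem _ _ (Submodule.subset_span ⟨_, ⟨_, rfl⟩, rfl⟩)
  · unfold bc
    rw [Submodule.span_le]
    rintro _ ⟨_, ⟨B, rfl⟩, rfl⟩
    exact ⟨B.map f, endL_map f t B⟩

omit [DecidableEq ι] in
theorem trace_map (f : R →+* S) (A : Matrix ι ι R) : Matrix.trace (A.map f) = f (Matrix.trace A) := by
  simp [Matrix.trace]

theorem IsPr.bc (f : R →+* S) {M : Submodule R (Matrix ι ι R)} {t : Tens ι 2 2 R} (h : IsPr M t) :
    IsPr (bc f M) (fun e => f (t e)) := by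
  intro A
  refine ⟨?_, ?_⟩
  · have h1 : endL (fun e => f (t e)) A ∈ LinearMap.range (endL (fun e => f (t e))) := ⟨A, rfl⟩
    rw [range_bc, h.range] at h1
    exact h1
  · intro X hX
    unfold Lin.bc at hX
    induction hX using Submodule.span_induction with
    | mem X hX =>
      obtain ⟨Y, hY, rfl⟩ := hX
      have h1 : ∀ e : ι × ι, Matrix.trace (Y.map f * (Matrix.single e.1 e.2 (1 : S) -
          endL (fun e => f (t e)) (Matrix.single e.1 e.2 (1 : S)))) = 0 := by
        intro e
        rw [← single_map f, endL_map, ← Matrix.map_sub f (map_sub f), ← Matrix.map_mul, trace_map,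
          (h _).2 Y hY, map_zero]
      have h2 : A - endL (fun e => f (t e)) A = ∑ e : ι × ι, A e.1 e.2 •
          (Matrix.single e.1 e.2 (1 : S) -
            endL (fun e => f (t e)) (Matrix.single e.1 e.2 (1 : S))) := by
        conv_lhs => rw [mat_sum_single A, map_sum]
        rw [← Finset.sum_sub_distrib]
        apply Finset.sum_congr rfl
        intro e _
        rw [map_smul, smul_sub]
      rw [h2, Matrix.mul_sum, Matrix.trace_sum]
      apply Finset.sum_eq_zero
      intro e _
      rw [Matrix.mul_smul, Matrix.trace_smul, h1, smul_zero]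
    | zero => rw [Matrix.zero_mul, Matrix.trace_zero]
    | add x y _ _ hx hy => rw [Matrix.add_mul, Matrix.trace_add, hx, hy, add_zero]
    | smul c x _ hx => rw [Matrix.smul_mul, Matrix.trace_smul, hx, smul_zero]

/-- descent of the projector -/
theorem exists_pr_of_bc (f : R →+* S) {M : Submodule R (Matrix ι ι R)} {T : Tens ι 2 2 S}
    (h : IsPr (bc f M) T) : ∃ t : Tens ι 2 2 R, IsPr M t := by
  apply exists_pr
  intro Y hY hY'
  have h1 : Y.map f = 0 := by
    refine h.nondeg (Submodule.subset_span ⟨Y, hY, rfl⟩) ?_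
    intro X hX
    unfold bc at hX
    induction hX using Submodule.span_induction with
    | mem X hX =>
      obtain ⟨Z, hZ, rfl⟩ := hX
      rw [← Matrix.map_mul, trace_map, hY' Z hZ, map_zero]
    | zero => rw [Matrix.zero_mul, Matrix.trace_zero]
    | add x y _ _ hx hy => rw [Matrix.add_mul, Matrix.trace_add, hx, hy, add_zero]
    | smul c x _ hx => rw [Matrix.smul_mul, Matrix.trace_smul, hx, smul_zero]
  ext i j
  have h2 := congrFun (congrFun h1 i) j
  rw [Matrix.map_apply, Matrix.zero_apply] at h2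
  rw [Matrix.zero_apply]
  exact f.injective (by rw [h2, map_zero])

end baseChange

/-- `lieSpan` by extension of scalars and conjugation -/
theorem lieSpan_eq {R : Type} [Field R] [CharZero R] (g : GL ι R) (h : HodgeStr ι) :
    lieSpan R g h = (bc (Rat.castHom R) (mtLie h)).map (cjL g) := by
  unfold lieSpan bc
  rw [Submodule.map_span]
  congr 1
  ext Y
  constructor
  · rintro ⟨X, hX, rfl⟩
    exact ⟨X.map (Rat.castHom R), ⟨X, hX, rfl⟩, rfl⟩
  · rintro ⟨_, ⟨X, hX, rfl⟩, rfl⟩
    exact ⟨X, hX, rfl⟩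

theorem isPr_lieSpan {R : Type} [Field R] [CharZero R] (g : GL ι R) {h : HodgeStr ι}
    {π : Tens ι 2 2 ℚ} (hπ : IsLieProj h π) : IsPr (lieSpan R g h) (act g (ratT R π)) := by
  rw [lieSpan_eq]
  exact (IsPr.bc (Rat.castHom R) (M := mtLie h) (t := π) hπ).act g

end Pool.Agent.Work.MP_0da4e0_ag.Lin
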