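import Pool.Agent.Work.MP_0da4e0_ag.Lin.Main

/-! MP_0da4e0_ag, linear criterion: the `l`-adic half as a special case, by means of a suitable choice of
the de Rham comparison. -/

open Matrix Matrix.GeneralLinearGroup

namespace Pool.Agent.Work.MP_0da4e0_ag.Lin

variable {ι : Type} [Fintype ι] [DecidableEq ι] {k : Type} [Field k]

/-- the system `H` with the de Rham comparison replaced by a `2`-adic one, relative to `σ` -/
noncomputable def tw (H : RealSys k ι) [Fact (Nat.Prime 2)] (γ : ℚ_[2] →+* ℂ) (σ : k →+* ℂ) : RealSys k ι :=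
  { hodge := H.hodge
    per := fun τ => (map γ (H.et σ 2))⁻¹ * map γ (H.et τ 2)
    et := H.et }

/-- an algebraic number is in the image of an algebraically closed field -/
theorem alg_range [IsAlgClosed k] (σ : k →+* ℂ) {z : ℂ} (hz : IsAlgebraic ℚ z) : ∃ x : k, σ x = z := by
  have : CharZero k := RingHom.charZero σ
  obtain ⟨p, hp0, hp⟩ := hz
  let _ := σ.toAlgebra
  have halg : IsAlgebraic k z := by
    refine ⟨p.map (algebraMap ℚ k), ?_, ?_⟩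
    · rwa [Polynomial.map_ne_zero_iff (algebraMap ℚ k).injective]
    · rw [Polynomial.aeval_def, Polynomial.eval₂_map]
      have h1 : (algebraMap k ℂ).comp (algebraMap ℚ k) = algebraMap ℚ ℂ := Subsingleton.elim _ _
      rw [h1]
      exact hp
  have hint : IsIntegral k z := halg.isIntegral
  have hd : (minpoly k z).degree = 1 :=
    IsAlgClosed.degree_eq_one_of_irreducible k (minpoly.irreducible hint)
  obtain ⟨x, hx⟩ := minpoly.mem_range_of_degree_eq_one k z hd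
  exact ⟨x, hx⟩

theorem fin_tw [IsAlgClosed k] {H : RealSys k ι} [Fact (Nat.Prime 2)] (γ : ℚ_[2] →+* ℂ)
    {σ : k →+* ℂ} {N₀ a b : ℕ} {x : Tens ι a b ℚ} (hx : IsFinAHet H σ N₀ x) :
    IsFinAH (tw H γ σ) σ N₀ x := by
  obtain ⟨N, hN, j₀, B, h0, hinj, halg, htype, hgal, had⟩ := hx
  choose D hD using fun (j : Fin N) (e : (Fin a → ι) × (Fin b → ι)) => alg_range σ (halg σ j e)
  -- the permutations
  have hp : ∀ τ : k →+* ℂ, ∃ p : Equiv.Perm (Fin N), ∀ j,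
      act ((tw H γ σ).per τ) (B τ j) = B σ (p j) := by
    intro τ
    obtain ⟨p, hp⟩ := had τ 2 γ
    refine ⟨p, fun j => ?_⟩
    change act ((map γ (H.et σ 2))⁻¹ * map γ (H.et τ 2)) (B τ j) = _
    rw [act_mul, hp j, act_inv_act]
  have hr : ∀ τ : k →+* ℂ, ∃ r : Equiv.Perm (Fin N), ∀ j, (fun e => τ (D j e)) = B σ (r j) := by
    intro τ
    obtain ⟨α, β, hαβ⟩ := amalg σ τ Cardinal.mk_complex.le
    obtain ⟨p, hp⟩ := hgal σ α
    obtain ⟨q, hq⟩ := hgal σ β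
    refine ⟨p.trans q.symm, fun j => ?_⟩
    have e1 := hq (q.symm (p j))
    rw [Equiv.apply_symm_apply, ← hp j] at e1
    funext e
    apply β.injective
    have e2 := congrFun e1 e
    have e3 : α (σ (D j e)) = β (τ (D j e)) := congrArg (fun φ : k →+* ℂ => φ (D j e)) hαβ
    rw [hD] at e3
    rw [← e3]
    exact e2.symm
  choose p hp using hp
  choose r hr using hr
  have hpσ : ∀ j, p σ j = j := by
    intro j
    have e1 := hp σ j
    change act ((map γ (H.et σ 2))⁻¹ * map γ (H.et σ 2)) (B σ j) = _ at e1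
    rw [inv_mul_cancel, act_one] at e1
    exact (hinj σ e1).symm
  have hrσ : ∀ j, r σ j = j := by
    intro j
    have e1 := hr σ j
    have e2 : (fun e => σ (D j e)) = B σ j := funext fun e => hD j e
    rw [e2] at e1
    exact (hinj σ e1).symm
  -- the new families
  let s : ∀ τ : k →+* ℂ, Equiv.Perm (Fin N) := fun τ => (r τ).trans (p τ).symm
  have hs : ∀ τ j, act ((tw H γ σ).per τ) (B τ (s τ j)) = fun e => τ (D j e) := by
    intro τ j
    rw [hp τ, hr τ]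
    change B σ (p τ ((p τ).symm (r τ j))) = _
    rw [Equiv.apply_symm_apply]
  have hsσ : ∀ j, s σ j = j := by
    intro j
    change (p σ).symm (r σ j) = j
    rw [hrσ, Equiv.symm_apply_eq, hpσ]
  refine ⟨N, hN, j₀, D, fun τ j => B τ (s τ j), ?_, ?_, ?_, ?_, hs, ?_, ?_⟩
  · change B σ (s σ j₀) = _
    rw [hsσ, h0]
  · intro τ i j hij
    exact (s τ).injective (hinj τ hij)
  · intro τ j e
    exact halg τ _ e
  · intro τ j
    exact htype τ _
  · intro τ θ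
    obtain ⟨q, hq⟩ := hgal τ θ
    refine ⟨((s τ).trans q).trans (s τ).symm, fun j => ?_⟩
    change (fun e => θ (B τ (s τ j) e)) = B τ (s τ ((s τ).symm (q (s τ j))))
    rw [Equiv.apply_symm_apply]
    exact hq _
  · intro τ l hl δ
    obtain ⟨q, hq⟩ := had τ l δ
    refine ⟨(s τ).trans q, fun j => ?_⟩
    change act (map δ (H.et τ l)) (B τ (s τ j)) =
      act (map δ (H.et σ l)) (B σ (s σ (q (s τ j))))
    rw [hsσ]
    exact hq _

/-- the projectors of the twisted system -/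
theorem exists_tw {H : RealSys k ι} [Fact (Nat.Prime 2)] (γ : ℚ_[2] →+* ℂ)
    {S : (k →+* ℂ) → Matrix ι ι ℚ} (hS : ∀ τ, Polarizes (H.hodge τ) (S τ))
    {π : (k →+* ℂ) → Tens ι 2 2 ℚ} (hπ : ∀ τ, IsLieProj (H.hodge τ) (π τ)) (hI : EtIndep H)
    (σ : k →+* ℂ) : ∃ s : AHTensor (tw H γ σ) 2 2, s.betti = π := by
  have : CharZero k := RingHom.charZero σ
  refine ⟨{ dR := ratT k (π σ)
            ad := fun l _ => act (H.et σ l) (ratT ℚ_[l] (π σ))
            betti := π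
            comp_dR := ?_
            comp_ad := fun τ l _ => et_proj hπ hI l τ σ
            hodge := fun τ => (hπ τ).isHodge (hS τ) }, rfl⟩
  intro τ
  have e1 := congrArg (fun t : Tens ι 2 2 ℚ_[2] => fun e => γ (t e)) (et_proj hπ hI 2 τ σ)
  rw [map_act, map_act, ratT_map, ratT_map] at e1
  change act ((map γ (H.et σ 2))⁻¹ * map γ (H.et τ 2)) (ratT ℂ (π τ)) = _
  rw [act_mul, e1, act_inv_act, ratT_map]

/-- The `l`-adic linear criterion. -/
theorem linear_et [IsAlgClosed k] {H : RealSys k ι}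
    (hpol : ∀ σ, ∃ S : Matrix ι ι ℚ, Polarizes (H.hodge σ) S) (h : ℕ)
    (hh : ∀ (σ : k →+* ℂ) (p q : ℤ), (H.hodge σ).V (p, q) ≠ ⊥ → |p| ≤ h) :
    (∀ σ, ∃ N₀, ∀ (a b : ℕ) (x : Tens ι a b ℚ), IsHodge (H.hodge σ) x → IsFinAHet H σ N₀ x) ↔
      EtIndep H ∧ ∀ (σ : k →+* ℂ) (a b : ℕ), a ≤ weilN (Fintype.card ι) h →
        b ≤ weilN (Fintype.card ι) h → ∀ x : Tens ι a b ℚ, IsHodge (H.hodge σ) x →
          IsWeil (H.hodge σ) x → ∃ N₀, IsFinAHet H σ N₀ x := by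
  constructor
  · intro hall
    refine ⟨etIndep_of_fin hpol fun σ a b x hx => ?_, fun σ a b _ _ x hx _ => ?_⟩
    · obtain ⟨N₀, h1⟩ := hall σ
      exact ⟨N₀, h1 a b x hx⟩
    · obtain ⟨N₀, h1⟩ := hall σ
      exact ⟨N₀, h1 a b x hx⟩
  · rintro ⟨hI, hW⟩ σ
    choose S hS using hpol
    choose π hπ using fun σ => exists_projQ (hS σ)
    have : Fact (Nat.Prime 2) := ⟨Nat.prime_two⟩
    obtain ⟨γ⟩ := embed_padic 2
    obtain ⟨s, hs⟩ := exists_tw γ hS hπ hI σ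
    have h1 := fin_of_ah s σ
    rw [hs] at h1
    obtain ⟨N₀, h2⟩ := (weil_criterion (tw H γ σ) σ (S σ) (hS σ) h (hh σ) (hπ σ)).2
      ⟨⟨1, h1⟩, fun a b ha hb x hx hxW => by
        obtain ⟨N₁, h3⟩ := hW σ a b ha hb x hx hxW
        exact ⟨N₁, fin_tw γ h3⟩⟩
    refine ⟨N₀, fun a b x hx => ?_⟩
    obtain ⟨N, hN, j₀, D, B, h0, hinj, halg, htype, -, hgal, had⟩ := h2 a b x hx
    exact ⟨N, hN, j₀, B, h0, hinj, halg, htype, hgal, had⟩

/-- The linear criterion. -/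
theorem linear_all [IsAlgClosed k] {H : RealSys k ι}
    (hpol : ∀ σ, ∃ S : Matrix ι ι ℚ, Polarizes (H.hodge σ) S) (h : ℕ)
    (hh : ∀ (σ : k →+* ℂ) (p q : ℤ), (H.hodge σ).V (p, q) ≠ ⊥ → |p| ≤ h) :
    (∀ σ, ∃ N₀, ∀ (a b : ℕ) (x : Tens ι a b ℚ), IsHodge (H.hodge σ) x → IsFinAH H σ N₀ x) ↔
      (EtIndep H ∧ DRIndep H) ∧ ∀ (σ : k →+* ℂ) (a b : ℕ), a ≤ weilN (Fintype.card ι) h →
        b ≤ weilN (Fintype.card ι) h → ∀ x : Tens ι a b ℚ, IsHodge (H.hodge σ) x →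
          IsWeil (H.hodge σ) x → ∃ N₀, IsFinAH H σ N₀ x := by
  constructor
  · intro hall
    have h0 : ∀ (σ : k →+* ℂ) (a b : ℕ) (x : Tens ι a b ℚ), IsHodge (H.hodge σ) x →
        ∃ N₀, IsFinAH H σ N₀ x := by
      intro σ a b x hx
      obtain ⟨N₀, h1⟩ := hall σ
      exact ⟨N₀, h1 a b x hx⟩
    refine ⟨⟨etIndep_of_fin hpol fun σ a b x hx => ?_, drIndep_of_fin hpol h0⟩,
      fun σ a b _ _ x hx _ => h0 σ a b x hx⟩
    obtain ⟨N₀, h1⟩ := h0 σ a b x hx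
    exact ⟨N₀, IsFinAHet.of_fin h1⟩
  · rintro ⟨hI, hW⟩ σ
    obtain ⟨s, hs⟩ := (indep_iff hpol).1 hI
    obtain ⟨S, hS⟩ := hpol σ
    exact (weil_criterion H σ S hS h (hh σ) (hs σ)).2
      ⟨⟨1, fin_of_ah s σ⟩, fun a b ha hb x hx hxW => hW σ a b ha hb x hx hxW⟩

/-- Nonzero pure weight and scalar Hodge endomorphisms: the spans are sufficient. -/
theorem linear_scalar [IsAlgClosed k] {H : RealSys k ι}
    (hpol : ∀ σ, ∃ S : Matrix ι ι ℚ, Polarizes (H.hodge σ) S) {w : ℤ} (hw : w ≠ 0)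
    (hpure : ∀ (σ : k →+* ℂ) p q, (H.hodge σ).V (p, q) ≠ ⊥ → p + q = w)
    (hE : ∀ (σ : k →+* ℂ) (A : Matrix ι ι ℚ), IsHodge (H.hodge σ) (matT A) →
      ∃ c : ℚ, A = c • (1 : Matrix ι ι ℚ)) :
    ((∀ σ, ∃ N₀, ∀ (a b : ℕ) (x : Tens ι a b ℚ), IsHodge (H.hodge σ) x → IsFinAHet H σ N₀ x) ↔
      EtIndep H) ∧
    ((∀ σ, ∃ N₀, ∀ (a b : ℕ) (x : Tens ι a b ℚ), IsHodge (H.hodge σ) x → IsFinAH H σ N₀ x) ↔
      EtIndep H ∧ DRIndep H) := by
  refine ⟨⟨fun hall => etIndep_of_fin hpol fun σ a b x hx => ?_,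
    fun hI σ => finEt_all hpol hw σ (hpure σ) (hE σ) hI⟩, ⟨fun hall => ?_, fun hI σ => ?_⟩⟩
  · obtain ⟨N₀, h1⟩ := hall σ
    exact ⟨N₀, h1 a b x hx⟩
  · refine ⟨etIndep_of_fin hpol fun σ a b x hx => ?_, drIndep_of_fin hpol fun σ a b x hx => ?_⟩
    · obtain ⟨N₀, h1⟩ := hall σ
      exact ⟨N₀, IsFinAHet.of_fin (h1 a b x hx)⟩
    · obtain ⟨N₀, h1⟩ := hall σ
      exact ⟨N₀, h1 a b x hx⟩
  · obtain ⟨s, hs⟩ := (indep_iff hpol).1 hI
    obtain ⟨S, hS⟩ := hpol σ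
    exact fin_all_of_proj hS hw (hpure σ) (hE σ) s (hs σ)

end Pool.Agent.Work.MP_0da4e0_ag.Lin
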