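import Pool.Agent.Work.MP_0da4e0_ag.Lin.AbsA

/-! MP_0da4e0_ag, linear criterion: if the Hodge tensors are absolutely Hodge up to finite ambiguity,
then the spans do not depend on the embedding. -/

open Matrix Matrix.GeneralLinearGroup

namespace Pool.Agent.Work.MP_0da4e0_ag.Lin

variable {ι : Type} [Fintype ι] [DecidableEq ι] {k : Type} [Field k]

/-- members of a finite family of type zero which is stable under field maps are killed by the Lie
algebra -/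
theorem killed_family {h : HodgeStr ι} {N a b : ℕ} {B : Fin N → Tens ι a b ℂ}
    (hinj : Function.Injective B) (htype : ∀ j, IsTypeZero h (B j))
    (hgal : ∀ θ : ℂ →+* ℂ, ∃ π : Equiv.Perm (Fin N), ∀ j, (fun e => θ (B j e)) = B (π j))
    {Y : Matrix ι ι ℂ} (hY : Y ∈ mtLieC h) (j : Fin N) : dact Y (B j) = 0 := by
  refine killed_of_psum B hinj Y (fun r => ?_) j
  have key : ∀ e, ∃ q : ℚ, (q : ℂ) = psum B r e := by
    intro e
    by_contra hcon
    push Not at hcon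
    obtain ⟨θ, hθ⟩ := exists_aut _ hcon
    apply hθ
    obtain ⟨π, hπ⟩ := hgal (θ : ℂ →+* ℂ)
    have h1 := congrFun (map_psum (θ : ℂ →+* ℂ) B r) e
    have h2 : (fun j e => (θ : ℂ →+* ℂ) (B j e)) = fun j => B (π j) := funext hπ
    rw [h2, psum_perm] at h1
    exact h1
  choose q hq using key
  have h1 : ratT ℂ (q : Tens ι (r * a) (r * b) ℚ) = psum B r := funext hq
  have h2 : IsHodge h (q : Tens ι (r * a) (r * b) ℚ) := by
    intro z w g hg
    rw [h1, act_psum]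
    have h5 : (fun j => act g (B j)) = B := funext (fun j => htype j z w g hg)
    rw [h5]
  have h3 := hY _ _ _ h2
  rwa [h1] at h3

/-- transport of a Hodge tensor which is absolutely Hodge up to finite ambiguity, `l`-adic comparison -/
theorem killed_et {H : RealSys k ι} {σ : k →+* ℂ} {N₀ a b : ℕ} {x : Tens ι a b ℚ}
    (hx : IsFinAHet H σ N₀ x) (τ : k →+* ℂ) {l : ℕ} [Fact l.Prime] (γ : ℚ_[l] →+* ℂ)
    {Y : Matrix ι ι ℂ} (hY : Y ∈ mtLieC (H.hodge τ)) :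
    dact Y (act ((map γ (H.et τ l))⁻¹ * map γ (H.et σ l)) (ratT ℂ x)) = 0 := by
  obtain ⟨N, -, j₀, B, h0, hinj, -, htype, hgal, had⟩ := hx
  obtain ⟨π, hπ⟩ := had τ l γ
  have h1 := hπ (π.symm j₀)
  rw [Equiv.apply_symm_apply, h0] at h1
  rw [act_mul, ← h1, act_inv_act]
  exact killed_family (hinj τ) (htype τ) (hgal τ) hY _

/-- the same for the de Rham comparison -/
theorem killed_per {H : RealSys k ι} {σ : k →+* ℂ} {N₀ a b : ℕ} {x : Tens ι a b ℚ}
    (hx : IsFinAH H σ N₀ x) (τ : k →+* ℂ) {α β : ℂ →+* ℂ} (hαβ : α.comp σ = β.comp τ)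
    {Y : Matrix ι ι ℂ} (hY : Y ∈ mtLieC (H.hodge τ)) :
    dact Y (act ((map β (H.per τ))⁻¹ * map α (H.per σ)) (ratT ℂ x)) = 0 := by
  obtain ⟨N, -, j₀, D, B, h0, hinj, -, htype, hdR, hgal, -⟩ := hx
  obtain ⟨π, hπ⟩ := hgal τ β
  have e1 := congrArg (fun t : Tens ι a b ℂ => fun e => α (t e)) (hdR σ j₀)
  have e2 := congrArg (fun t : Tens ι a b ℂ => fun e => β (t e)) (hdR τ j₀)
  rw [map_act] at e1 e2
  rw [h0, ratT_map] at e1
  rw [hπ j₀] at e2
  have e3 : (fun e => α (σ (D j₀ e))) = fun e => β (τ (D j₀ e)) := by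
    funext e
    exact congrArg (fun φ : k →+* ℂ => φ (D j₀ e)) hαβ
  rw [act_mul, e1, e3, ← e2, act_inv_act]
  exact killed_family (hinj τ) (htype τ) (hgal τ) hY _

/-- a transport which maps the Hodge tensors at `σ` to tensors killed by the Lie algebra at `τ`, and
conversely, maps the projector to the projector -/
theorem act_proj {H : RealSys k ι} {σ τ : k →+* ℂ} {S T : Matrix ι ι ℚ}
    (_hS : Polarizes (H.hodge σ) S) (_hT : Polarizes (H.hodge τ) T) {π π' : Tens ι 2 2 ℚ}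
    (hπ : IsLieProj (H.hodge σ) π) (hπ' : IsLieProj (H.hodge τ) π') {u : GL ι ℂ}
    (h1 : ∀ (a b : ℕ) (x : Tens ι a b ℚ), IsHodge (H.hodge σ) x → ∀ Y ∈ mtLieC (H.hodge τ),
      dact Y (act u (ratT ℂ x)) = 0)
    (h2 : ∀ (a b : ℕ) (x : Tens ι a b ℚ), IsHodge (H.hodge τ) x → ∀ Y ∈ mtLieC (H.hodge σ),
      dact Y (act u⁻¹ (ratT ℂ x)) = 0) :
    act u (ratT ℂ π) = ratT ℂ π' := by
  have k1 : ∀ Y ∈ mtLieC (H.hodge τ), cjL u⁻¹ Y ∈ mtLieC (H.hodge σ) := by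
    intro Y hY a b x hx
    have e1 := act_dact u⁻¹ Y (act u (ratT ℂ x))
    rw [h1 a b x hx Y hY, act_inv_act] at e1
    rw [cjL_apply, ← e1, act_eq, Matrix.mulVec_zero]
  have k2 : ∀ Y ∈ mtLieC (H.hodge σ), cjL u Y ∈ mtLieC (H.hodge τ) := by
    intro Y hY a b x hx
    have e1 := act_dact u Y (act u⁻¹ (ratT ℂ x))
    rw [h2 a b x hx Y hY, act_act_inv] at e1
    rw [cjL_apply, ← e1, act_eq, Matrix.mulVec_zero]
  have p1 : IsPr (mtLieC (H.hodge σ)) (ratT ℂ π) := fun A =>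
    ⟨hπ.mem A, fun X hX => hπ.orth A X hX⟩
  have p2 : IsPr (mtLieC (H.hodge τ)) (ratT ℂ π') := fun A =>
    ⟨hπ'.mem A, fun X hX => hπ'.orth A X hX⟩
  have hmap : (mtLieC (H.hodge σ)).map (cjL u) = mtLieC (H.hodge τ) := by
    apply le_antisymm
    · rintro _ ⟨X, hX, rfl⟩
      exact k2 X hX
    · intro Y hY
      exact ⟨cjL u⁻¹ Y, k1 Y hY, cjL_inv u Y⟩
  have p3 := p1.act u
  rw [hmap] at p3
  exact p3.unique p2

/-- `l`-adic half -/
theorem etIndep_of_fin {H : RealSys k ι} (hpol : ∀ σ, ∃ S : Matrix ι ι ℚ, Polarizes (H.hodge σ) S)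
    (h : ∀ (σ : k →+* ℂ) (a b : ℕ) (x : Tens ι a b ℚ), IsHodge (H.hodge σ) x →
      ∃ N₀, IsFinAHet H σ N₀ x) : EtIndep H := by
  choose S hS using hpol
  choose π hπ using fun σ => exists_projQ (hS σ)
  refine et_of_proj hπ ?_
  intro l hl σ τ
  obtain ⟨γ⟩ := embed_padic l
  have h1 : act ((map γ (H.et τ l))⁻¹ * map γ (H.et σ l)) (ratT ℂ (π σ)) = ratT ℂ (π τ) := by
    refine act_proj (hS σ) (hS τ) (hπ σ) (hπ τ) ?_ ?_
    · intro a b x hx Y hY
      obtain ⟨N₀, h2⟩ := h σ a b x hx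
      exact killed_et h2 τ γ hY
    · intro a b x hx Y hY
      obtain ⟨N₀, h2⟩ := h τ a b x hx
      rw [_root_.mul_inv_rev, inv_inv]
      exact killed_et h2 σ γ hY
  rw [act_mul] at h1
  have h2 : act (map γ (H.et σ l)) (ratT ℂ (π σ)) = act (map γ (H.et τ l)) (ratT ℂ (π τ)) := by
    rw [← h1, act_act_inv]
  have h3 : (fun e => γ (act (H.et σ l) (ratT ℚ_[l] (π σ)) e)) =
      fun e => γ (act (H.et τ l) (ratT ℚ_[l] (π τ)) e) := by
    rw [map_act, map_act, ratT_map, ratT_map]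
    exact h2
  funext e
  exact γ.injective (congrFun h3 e)

/-- de Rham half -/
theorem drIndep_of_fin {H : RealSys k ι} (hpol : ∀ σ, ∃ S : Matrix ι ι ℚ, Polarizes (H.hodge σ) S)
    (h : ∀ (σ : k →+* ℂ) (a b : ℕ) (x : Tens ι a b ℚ), IsHodge (H.hodge σ) x →
      ∃ N₀, IsFinAH H σ N₀ x) : DRIndep H := by
  choose S hS using hpol
  choose π hπ using fun σ => exists_projQ (hS σ)
  rcases isEmpty_or_nonempty (k →+* ℂ) with hk | ⟨⟨σ₀⟩⟩
  · exact ⟨⊤, fun σ => (hk.false σ).elim⟩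
  obtain ⟨N₀, hfin⟩ := h σ₀ 2 2 (π σ₀) ((hπ σ₀).isHodge (hS σ₀))
  obtain ⟨N, -, j₀, D, B, h0, -, -, -, hdR, -, -⟩ := hfin
  refine dr_of_proj hπ (D := D j₀) ?_
  intro τ
  obtain ⟨α, β, hαβ⟩ := amalg σ₀ τ Cardinal.mk_complex.le
  have h1 : act ((map β (H.per τ))⁻¹ * map α (H.per σ₀)) (ratT ℂ (π σ₀)) = ratT ℂ (π τ) := by
    refine act_proj (hS σ₀) (hS τ) (hπ σ₀) (hπ τ) ?_ ?_
    · intro a b x hx Y hY
      obtain ⟨N₁, h2⟩ := h σ₀ a b x hx
      exact killed_per h2 τ hαβ hY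
    · intro a b x hx Y hY
      obtain ⟨N₁, h2⟩ := h τ a b x hx
      rw [_root_.mul_inv_rev, inv_inv]
      exact killed_per h2 σ₀ hαβ.symm hY
  rw [act_mul] at h1
  have h2 : act (map α (H.per σ₀)) (ratT ℂ (π σ₀)) = act (map β (H.per τ)) (ratT ℂ (π τ)) := by
    rw [← h1, act_act_inv]
  have e1 := congrArg (fun t : Tens ι 2 2 ℂ => fun e => α (t e)) (hdR σ₀ j₀)
  rw [map_act, h0, ratT_map, h2] at e1
  have e3 : (fun e => α (σ₀ (D j₀ e))) = fun e => β (τ (D j₀ e)) := by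
    funext e
    exact congrArg (fun φ : k →+* ℂ => φ (D j₀ e)) hαβ
  rw [e3] at e1
  have e4 : (fun e => β (act (H.per τ) (ratT ℂ (π τ)) e)) = fun e => β (τ (D j₀ e)) := by
    rw [map_act, ratT_map]
    exact e1
  funext e
  exact β.injective (congrFun e4 e)

end Pool.Agent.Work.MP_0da4e0_ag.Lin
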